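import Pool.Agent.Helper65.KG.Goals

/-!
# Project KG (MP_20ee5e_ag), packet SW: all slices
-/

set_option autoImplicit false

open MeasureTheory Set Function

namespace Pool.Agent.Helper4.KG.SW

open Pool.Agent.Helper70.KN Pool.Agent.Helper65.KG

lemma int_pow (c : ℝ) (hc : 0 < c) (k : ℕ) :
    ∫⁻ s in Ioo (0 : ℝ) c, ENNReal.ofReal ((1 - s / c) ^ k) = ENNReal.ofReal (c / ((k : ℝ) + 1)) := by
  have h1 : ∫ s in (0 : ℝ)..c, (1 - s / c) ^ k = c / ((k : ℝ) + 1) := by
    rw [intervalIntegral.integral_comp_sub_div (fun x : ℝ => x ^ k) hc.ne' 1, div_self hc.ne',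
      zero_div, sub_self, sub_zero, integral_pow, one_pow, zero_pow (Nat.succ_ne_zero k), sub_zero,
      smul_eq_mul]
    ring
  have hcont : Continuous fun s : ℝ => (1 - s / c) ^ k := by fun_prop
  have h2 : ∫⁻ s in Ioo (0 : ℝ) c, ENNReal.ofReal ((1 - s / c) ^ k) =
      ENNReal.ofReal (∫ s in Ioo (0 : ℝ) c, (1 - s / c) ^ k) := by
    symm
    apply ofReal_integral_eq_lintegral_ofReal
    · exact (hcont.integrableOn_Icc (a := 0) (b := c)).mono_set Ioo_subset_Icc_self
    · refine (ae_restrict_iff' measurableSet_Ioo).2 (Filter.Eventually.of_forall fun s hs => ?_)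
      have h3 : 0 ≤ 1 - s / c := by
        rw [sub_nonneg, div_le_one hc]
        exact hs.2.le
      exact pow_nonneg h3 k
  rw [h2, ← h1, intervalIntegral.integral_of_le hc.le, integral_Ioc_eq_integral_Ioo]

lemma meas_zr {N : ℕ} (J : Finset (Fin N)) : Measurable (zr J) := by
  refine measurable_pi_lambda _ fun i => ?_
  unfold zr
  by_cases hi : i ∈ J
  · simp only [if_pos hi]
    exact measurable_const
  · simp only [if_neg hi]
    exact measurable_pi_apply i

lemma meas_upd {N : ℕ} (i : Fin N) : Measurable fun p : ℝ × (Fin N → ℝ) => update p.2 i p.1 := by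
  refine measurable_pi_lambda _ fun j => ?_
  by_cases hj : j = i
  · subst hj
    simp only [update_self]
    exact measurable_fst
  · simp only [update_of_ne hj]
    exact (measurable_pi_apply j).comp measurable_snd

theorem t (hSV : S_SV) : S_SW := by
  intro N V c hN hT f hf J i hi
  have hc : 0 < c := hT.2.1
  obtain ⟨hcm, -, -⟩ := pMF N V hT.1 J
  set B : Set (Fin N → ℝ) := {x : Fin N → ℝ | 0 ≤ x i ∧ x i < 1} with hB
  have hBm : MeasurableSet B :=
    (measurableSet_le measurable_const (measurable_pi_apply i)).inter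
      (measurableSet_lt (measurable_pi_apply i) measurable_const)
  obtain ⟨F, hF⟩ : ∃ F : (Fin N → ℝ) → ENNReal, F = (cyl V J).indicator fun x => f (zr J x) :=
    ⟨_, rfl⟩
  have hFm : Measurable F := by
    rw [hF]
    exact (hf.1.comp (meas_zr J)).indicator hcm
  have hcard : J.card < N := by
    have h1 : J ⊂ Finset.univ := Finset.ssubset_univ_iff.2 fun h => hi (h ▸ Finset.mem_univ i)
    have h2 := Finset.card_lt_card h1
    simpa using h2
  obtain ⟨k, hk⟩ : ∃ k, N = J.card + 1 + k := Nat.exists_eq_add_of_le hcard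
  have hk1 : N - J.card - 1 = k := by omega
  have hk2 : (N : ℝ) - J.card = (k : ℝ) + 1 := by
    have : (N : ℝ) = (J.card : ℝ) + 1 + k := by exact_mod_cast hk
    linarith
  have hum : Measurable (uncurry fun (x : Fin N → ℝ) (s : ℝ) => F (update x i s)) :=
    hFm.comp ((meas_upd i).comp measurable_swap)
  calc ENNReal.ofReal (c / ((N : ℝ) - J.card)) *
        ∫⁻ x in cyl V (insert i J), f (zr (insert i J) x)
      = (∫⁻ s in Ioo (0 : ℝ) c, ENNReal.ofReal ((1 - s / c) ^ k)) *
        ∫⁻ x in cyl V (insert i J), f (zr (insert i J) x) := by rw [int_pow c hc k, hk2]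
    _ = ∫⁻ s in Ioo (0 : ℝ) c, ENNReal.ofReal ((1 - s / c) ^ k) *
        ∫⁻ x in cyl V (insert i J), f (zr (insert i J) x) := by
        rw [lintegral_mul_const _ (by fun_prop)]
    _ ≤ ∫⁻ s in Ioo (0 : ℝ) c, ∫⁻ x in B, F (update x i s) := by
        refine setLIntegral_mono' measurableSet_Ioo fun s hs => ?_
        have h1 := hSV N V c hN hT f hf J i hi s hs.1 hs.2
        rw [hk1] at h1
        refine h1.trans_eq ?_
        have hSm : MeasurableSet {x : Fin N → ℝ | update x i s ∈ cyl V J} := by
          have h2 : Measurable fun x : Fin N → ℝ => update x i s :=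
            (meas_upd i).comp (measurable_const.prodMk measurable_id)
          exact h2 hcm
        have h3 : ∀ x : Fin N → ℝ, F (update x i s) =
            {x : Fin N → ℝ | update x i s ∈ cyl V J}.indicator
              (fun x => f (zr J (update x i s))) x := by
          intro x
          rw [hF]
          by_cases hx : update x i s ∈ cyl V J
          · rw [indicator_of_mem hx, indicator_of_mem (show x ∈ {x : Fin N → ℝ |
              update x i s ∈ cyl V J} from hx)]
          · rw [indicator_of_notMem hx, indicator_of_notMem (show x ∉ {x : Fin N → ℝ |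
              update x i s ∈ cyl V J} from hx)]
        simp only [h3]
        rw [setLIntegral_indicator hSm]
        congr 2
        ext x
        simp only [hB, mem_ofPred_eq, mem_inter_iff]
        tauto
    _ ≤ ∫⁻ s : ℝ, ∫⁻ x in B, F (update x i s) := setLIntegral_le_lintegral _ _
    _ = ∫⁻ x in B, ∫⁻ s : ℝ, F (update x i s) := (lintegral_lintegral_swap hum.aemeasurable).symm
    _ = ∫⁻ x, F x := (pFBF N F i hFm).symm
    _ = ∫⁻ x in cyl V J, f (zr J x) := by rw [hF, lintegral_indicator hcm]

end Pool.Agent.Helper4.KG.SW
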